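import Pool.Agent.T9h77.NF.Spec

/-!
# Dirichlet: a section of the logarithms
-/

set_option autoImplicit false

open Finset NumberField H39Gon Pool.Agent.T9h42.GF Pool.Agent.T9h57.QD Pool.Agent.T9h77.NF
open NumberField.Units NumberField.Units.dirichletUnitTheorem NumberField.InfinitePlace
open scoped TensorProduct

namespace Pool.Agent.T9h80.NF

variable {K : Type} [Field K] [NumberField K]

omit [NumberField K] in
theorem cl_mul {x y : K} (hx : x ≠ 0) (hy : y ≠ 0) : cl (x * y) = cl x + cl y := by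
  unfold cl
  rw [dif_neg hx, dif_neg hy, dif_neg (mul_ne_zero hx hy), ← ofMul_mul]
  congr 1
  ext
  rfl

omit [NumberField K] in
theorem cr_mul {x y : K} (hx : x ≠ 0) (hy : y ≠ 0) : cr (x * y) = cr x + cr y := by
  unfold cr
  rw [cl_mul hx hy, TensorProduct.tmul_add]

omit [NumberField K] in
theorem cr_one : cr (1 : K) = 0 := by
  have h := cr_mul (one_ne_zero (α := K)) (one_ne_zero (α := K))
  rw [mul_one] at h
  simpa using h

omit [NumberField K] in
theorem co_mul {x y : 𝓞 K} (hx : x ≠ 0) (hy : y ≠ 0) : co (x * y) = co x + co y := by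
  unfold co
  change cr ((x : K) * (y : K)) = _
  exact cr_mul (by simpa using hx) (by simpa using hy)

omit [NumberField K] in
theorem co_pow {x : 𝓞 K} (hx : x ≠ 0) (k : ℕ) : co (x ^ k) = (k : ℝ) • co x := by
  induction k with
  | zero =>
    rw [pow_zero, Nat.cast_zero, zero_smul]
    exact cr_one
  | succ k ih =>
    rw [pow_succ, co_mul (pow_ne_zero k hx) hx, ih, Nat.cast_succ, add_smul, one_smul]

/-- the classes of the units. -/
noncomputable def cu : Additive (𝓞 K)ˣ →+ VK K where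
  toFun := fun u => co ((Additive.toMul u : (𝓞 K)ˣ) : 𝓞 K)
  map_zero' := by
    rw [toMul_zero, Units.val_one]
    exact cr_one
  map_add' := fun a b => by
    rw [toMul_add, Units.val_mul]
    exact co_mul (Units.ne_zero _) (Units.ne_zero _)

omit [NumberField K] in
theorem cu_apply (u : (𝓞 K)ˣ) : cu (Additive.ofMul u) = co (u : 𝓞 K) := rfl

omit [NumberField K] in
theorem cu_torsion {ζ : (𝓞 K)ˣ} (h : ζ ∈ torsion K) : cu (Additive.ofMul ζ) = 0 := by
  have h' : IsOfFinOrder ζ := h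
  obtain ⟨n, hn, hn'⟩ := isOfFinOrder_iff_pow_eq_one.mp h'
  have h1 : (n : ℕ) • cu (Additive.ofMul ζ) = 0 := by
    rw [← map_nsmul, ← ofMul_pow, hn', ofMul_one, map_zero]
  rw [← Nat.cast_smul_eq_nsmul ℝ] at h1
  exact (smul_eq_zero.mp h1).resolve_left (by exact_mod_cast hn.ne')

omit [NumberField K] in
theorem Lg_co {x : 𝓞 K} (hx : x ≠ 0) (v : InfinitePlace K) :
    Lg (co x) v = Real.log (v (x : K)) := by
  have hx' : (x : K) ≠ 0 := by simpa using hx
  unfold Lg co cr
  rw [LinearMap.liftBaseChange_tmul, one_smul]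
  unfold cl lgA
  rw [dif_neg hx']
  rfl

/-- sum with the multiplicities. -/
noncomputable def sg : (InfinitePlace K → ℝ) →ₗ[ℝ] ℝ where
  toFun := fun y => ∑ v, (mult v : ℝ) * y v
  map_add' := fun a b => by
    simp only [Pi.add_apply, mul_add, Finset.sum_add_distrib]
  map_smul' := fun a b => by
    simp only [Pi.smul_apply, smul_eq_mul, RingHom.id_apply, Finset.mul_sum]
    exact Finset.sum_congr rfl fun v _ => by ring

theorem sg_unit (u : (𝓞 K)ˣ) : sg (Lg (co (u : 𝓞 K))) = 0 := by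
  change ∑ v, (mult v : ℝ) * Lg (co (u : 𝓞 K)) v = 0
  rw [← sum_mult_mul_log u]
  exact Finset.sum_congr rfl fun v _ => by rw [Lg_co (Units.ne_zero _)]

theorem sg_pos {ϖ : 𝓞 K} (h0 : ϖ ≠ 0) (h1 : ¬ IsUnit ϖ) : 0 < sg (Lg (co ϖ)) := by
  have h0' : (ϖ : K) ≠ 0 := by simpa using h0
  have e : sg (Lg (co ϖ)) = Real.log (|Algebra.norm ℚ (ϖ : K)| : ℚ) := by
    change ∑ v, (mult v : ℝ) * Lg (co ϖ) v = _
    rw [← prod_eq_abs_norm, Real.log_prod]
    · exact Finset.sum_congr rfl fun v _ => by rw [Lg_co h0, Real.log_pow]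
    · intro v _
      exact pow_ne_zero _ (by simpa using h0')
  rw [e]
  have h2 : (1 : ℚ) < |Algebra.norm ℚ (ϖ : K)| := by
    rw [← Algebra.coe_norm_int]
    have h3 : Algebra.norm ℤ ϖ ≠ 0 := by
      rw [Algebra.norm_ne_zero_iff]
      exact h0
    have h4 : |Algebra.norm ℤ ϖ| ≠ 1 := by
      intro h
      apply h1
      rw [NumberField.isUnit_iff_norm]
      rw [RingOfIntegers.coe_norm, ← Algebra.coe_norm_int]
      exact_mod_cast h
    have h5 : 1 ≤ |Algebra.norm ℤ ϖ| := Int.one_le_abs h3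
    have h6 : 1 < |Algebra.norm ℤ ϖ| := lt_of_le_of_ne h5 (Ne.symm h4)
    exact_mod_cast h6
  exact Real.log_pos (by exact_mod_cast h2)

/-- the generators. -/
noncomputable def bb (ϖ : 𝓞 K) : Option (Fin (Units.rank K)) → VK K
  | none => co ϖ
  | some i => co (fundSystem K i : 𝓞 K)

noncomputable def TT (ϖ : 𝓞 K) : (Option (Fin (Units.rank K)) → ℝ) →ₗ[ℝ] VK K :=
  Fintype.linearCombination ℝ (bb ϖ)

theorem bb_mem (ϖ : 𝓞 K) (o : Option (Fin (Units.rank K))) :
    bb ϖ o ∈ LinearMap.range (TT ϖ) := by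
  classical
  refine ⟨Pi.single o 1, ?_⟩
  unfold TT
  rw [Fintype.linearCombination_apply_single, one_smul]

theorem unit_mem (ϖ : 𝓞 K) (u : (𝓞 K)ˣ) : co (u : 𝓞 K) ∈ LinearMap.range (TT ϖ) := by
  obtain ⟨⟨ζ, e⟩, he, -⟩ := exist_unique_eq_mul_prod K u
  have h1 : co (u : 𝓞 K) = ∑ i, (e i : ℝ) • bb ϖ (some i) := by
    rw [← cu_apply, he]
    simp only
    rw [ofMul_mul, map_add, cu_torsion ζ.2, zero_add, ofMul_prod, map_sum]
    refine Finset.sum_congr rfl fun i _ => ?_
    rw [ofMul_zpow, map_zsmul, Int.cast_smul_eq_zsmul]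
    rfl
  rw [h1]
  exact Submodule.sum_mem _ fun i _ => Submodule.smul_mem _ _ (bb_mem ϖ _)

theorem surj {ϖ : 𝓞 K} (h0 : ϖ ≠ 0) (h1 : ¬ IsUnit ϖ) :
    Function.Surjective (Lg (K := K) ∘ₗ TT ϖ) := by
  classical
  rw [← LinearMap.range_eq_top]
  set R := LinearMap.range (Lg (K := K) ∘ₗ TT ϖ) with hR
  have hmem : ∀ z ∈ LinearMap.range (TT ϖ), Lg z ∈ R := by
    rintro _ ⟨c, rfl⟩
    exact ⟨c, rfl⟩
  have hz : ∀ z : logSpace K, ∃ t ∈ R, sg t = 0 ∧
      ∀ w : {w : InfinitePlace K // w ≠ w₀}, (mult w.val : ℝ) * t w.val = z w := by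
    intro z
    have hzt : z ∈ Submodule.span ℝ (unitLattice K : Set (logSpace K)) := by
      rw [unitLattice_span_eq_top]
      trivial
    induction hzt using Submodule.span_induction with
    | mem x hx =>
      obtain ⟨u, -, rfl⟩ := hx
      refine ⟨Lg (co ((Additive.toMul u : (𝓞 K)ˣ) : 𝓞 K)), hmem _ (unit_mem ϖ _), sg_unit _, ?_⟩
      intro w
      rw [Lg_co (Units.ne_zero _)]
      rfl
    | zero => exact ⟨0, R.zero_mem, map_zero _, fun w => by simp⟩
    | add x y _ _ hx hy =>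
      obtain ⟨t, ht, ht0, htw⟩ := hx
      obtain ⟨t', ht', ht0', htw'⟩ := hy
      refine ⟨t + t', R.add_mem ht ht', by rw [map_add, ht0, ht0', add_zero], fun w => ?_⟩
      rw [Pi.add_apply, mul_add, htw, htw', Pi.add_apply]
    | smul a x _ hx =>
      obtain ⟨t, ht, ht0, htw⟩ := hx
      refine ⟨a • t, R.smul_mem a ht, by rw [map_smul, ht0, smul_zero], fun w => ?_⟩
      rw [Pi.smul_apply, Pi.smul_apply, ← htw, smul_eq_mul, smul_eq_mul]
      ring
  rw [Submodule.eq_top_iff']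
  intro y
  have hp := sg_pos h0 h1
  set c : ℝ := sg y / sg (Lg (co ϖ)) with hc
  obtain ⟨t, ht, ht0, htw⟩ := hz (fun w => (mult w.val : ℝ) * (y - c • Lg (co ϖ)) w.val)
  have hy0 : sg (y - c • Lg (co ϖ)) = 0 := by
    rw [map_sub, map_smul, smul_eq_mul, hc, div_mul_cancel₀ _ hp.ne', sub_self]
  have key : t = y - c • Lg (co ϖ) := by
    have hne : ∀ w : InfinitePlace K, w ≠ w₀ → t w = (y - c • Lg (co ϖ)) w := by
      intro w hw
      have := htw ⟨w, hw⟩
      exact mul_left_cancel₀ (by exact_mod_cast (mult_pos (w := w)).ne') this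
    funext w
    by_cases hw : w = w₀
    · subst hw
      have h3 : sg t = sg (y - c • Lg (co ϖ)) := by rw [ht0, hy0]
      change ∑ v, (mult v : ℝ) * t v = ∑ v, (mult v : ℝ) * (y - c • Lg (co ϖ)) v at h3
      rw [← Finset.add_sum_erase _ _ (Finset.mem_univ w₀),
        ← Finset.add_sum_erase _ (fun v => (mult v : ℝ) * (y - c • Lg (co ϖ)) v)
          (Finset.mem_univ w₀)] at h3
      have h4 : ∑ v ∈ Finset.univ.erase w₀, (mult v : ℝ) * t v =
          ∑ v ∈ Finset.univ.erase w₀, (mult v : ℝ) * (y - c • Lg (co ϖ)) v :=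
        Finset.sum_congr rfl fun v hv => by rw [hne v (Finset.ne_of_mem_erase hv)]
      rw [h4] at h3
      exact mul_left_cancel₀ (by exact_mod_cast (mult_pos (w := w₀)).ne')
        (add_right_cancel h3)
    · exact hne w hw
  have h5 : y = t + c • Lg (co ϖ) := by rw [key]; abel
  rw [h5]
  exact R.add_mem ht (R.smul_mem c (hmem _ (bb_mem ϖ none)))

theorem secN : SecN K := by
  intro ϖ h0 h1
  have hs := surj h0 h1
  have hcard : Module.finrank ℝ (Option (Fin (Units.rank K)) → ℝ) =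
      Module.finrank ℝ (InfinitePlace K → ℝ) := by
    rw [Module.finrank_fintype_fun_eq_card, Module.finrank_fintype_fun_eq_card,
      Fintype.card_option, Fintype.card_fin, Units.rank]
    have : 0 < Fintype.card (InfinitePlace K) := Fintype.card_pos
    omega
  have hi := (LinearMap.injective_iff_surjective_of_finrank_eq_finrank hcard).mpr hs
  let e := LinearEquiv.ofBijective (Lg (K := K) ∘ₗ TT ϖ) ⟨hi, hs⟩
  refine ⟨TT ϖ ∘ₗ e.symm.toLinearMap, fun y => ?_, fun x hx => ?_⟩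
  · exact e.apply_symm_apply y
  · obtain ⟨u, k, rfl⟩ := hx
    have hm : co ((u : 𝓞 K) * ϖ ^ k) ∈ LinearMap.range (TT ϖ) := by
      rw [co_mul (Units.ne_zero u) (pow_ne_zero k h0), co_pow h0]
      exact Submodule.add_mem _ (unit_mem ϖ u) (Submodule.smul_mem _ _ (bb_mem ϖ none))
    obtain ⟨c, hc⟩ := hm
    rw [← hc]
    exact congrArg (TT ϖ) (e.symm_apply_apply c)

end Pool.Agent.T9h80.NF
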