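import Pool.Agent.T9h11.NF.Spec2
import Pool.Agent.T9h57.NF.Ex

/-!
# Few pairs of products are not coprime
-/

set_option autoImplicit false

namespace Pool.Agent.T9h80.NF

open Finset NumberField Pool.Agent.T9h42.GF Pool.Agent.T9h57.QD Pool.Agent.T9h11.NF
open Pool.Agent.T9h57.NF

section marg

variable {α : Type} {n : ℕ} {S : Finset α} {p : α → ℝ}

/-- the marginal of one slot. -/
theorem marg (hp : ∑ a ∈ S, p a = 1) (i : Fin n) (f : α → ℝ) :
    exw n S p (fun x => f (x i)) = ∑ a ∈ S, p a * f a := by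
  classical
  unfold exw
  have h1 : ∀ x : Fin n → α, (∏ k, p (x k)) * f (x i) =
      ∏ k, (p (x k) * if k = i then f (x k) else 1) := by
    intro x
    rw [Finset.prod_mul_distrib]
    congr 1
    rw [Finset.prod_ite_eq' Finset.univ i (fun k => f (x k)), if_pos (Finset.mem_univ i)]
  simp only [h1]
  rw [← Finset.prod_univ_sum (fun _ : Fin n => S)
    (fun k a => p a * if k = i then f a else 1)]
  rw [Finset.prod_eq_single i]
  · simp
  · intro k _ hk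
    simp [hk, hp]
  · intro h
    exact absurd (Finset.mem_univ i) h

end marg

theorem ind_nonneg (P : Prop) : 0 ≤ ind P := by
  unfold ind
  split_ifs <;> norm_num

theorem ind_le_one (P : Prop) : ind P ≤ 1 := by
  unfold ind
  split_ifs <;> norm_num

theorem ind_pos {P : Prop} (h : P) : ind P = 1 := by
  unfold ind
  rw [if_pos h]

theorem ind_neg {P : Prop} (h : ¬ P) : ind P = 0 := by
  unfold ind
  rw [if_neg h]

variable {K : Type} [Field K] [NumberField K]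

/-- common prime ideal of two products which are not coprime. -/
theorem common {j k : ℕ} {u : Fin j → 𝓞 K} {y : Fin k → 𝓞 K}
    (h : ¬ cop (∏ i, u i) (Ideal.span {∏ i, y i})) :
    ∃ q : Ideal (𝓞 K), q.IsPrime ∧ q ≠ ⊥ ∧ ∃ i l, u i ∈ q ∧ y l ∈ q := by
  unfold cop at h
  rw [Ideal.isCoprime_iff_sup_eq] at h
  obtain ⟨q, hq, hle⟩ := Ideal.exists_le_maximal _ h
  have hp : q.IsPrime := hq.isPrime
  have h1 : ∏ i, u i ∈ q := by
    apply hle
    exact Submodule.mem_sup_left (Ideal.mem_span_singleton_self _)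
  have h2 : ∏ i, y i ∈ q := by
    apply hle
    exact Submodule.mem_sup_right (Ideal.mem_span_singleton_self _)
  obtain ⟨i, -, hi⟩ := (hp.prod_mem_iff).mp h1
  obtain ⟨l, -, hl⟩ := (hp.prod_mem_iff).mp h2
  refine ⟨q, hp, ?_, i, l, hi, hl⟩
  rintro rfl
  exact RingOfIntegers.not_isField K (Ring.isField_iff_maximal_bot.mpr hq)

/-- union bound over the pairs of slots and the prime ideals. -/
theorem union_bound (j k : ℕ) (X Y : Finset (𝓞 K)) (p₁ p₂ : 𝓞 K → ℝ)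
    (h₁ : ∀ x ∈ X, 0 ≤ p₁ x) (h₂ : ∀ y ∈ Y, 0 ≤ p₂ y) (s₁ : ∑ x ∈ X, p₁ x = 1)
    (s₂ : ∑ y ∈ Y, p₂ y = 1) (Ps : Finset (Ideal (𝓞 K)))
    (hP : ∀ q : Ideal (𝓞 K), q.IsPrime → q ≠ ⊥ → (∃ x ∈ X, x ∈ q) → q ∈ Ps) :
    exk j X p₁ (fun u => exk k Y p₂ (fun y =>
      ind (¬ cop (∏ i, u i) (Ideal.span {∏ i, y i})))) ≤
      j * (k * ∑ q ∈ Ps, (∑ x ∈ X, p₁ x * ind (x ∈ q)) * ∑ y ∈ Y, p₂ y * ind (y ∈ q)) := by
  have e1 : exk j X p₁ (fun u => exk k Y p₂ (fun y =>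
      ind (¬ cop (∏ i, u i) (Ideal.span {∏ i, y i})))) ≤
      exw j X p₁ (fun u => exw k Y p₂ (fun y =>
        ∑ i, ∑ l, ∑ q ∈ Ps, ind (u i ∈ q) * ind (y l ∈ q))) := by
    refine exw_mono h₁ fun u hu => exw_mono h₂ fun y hy => ?_
    by_cases h : cop (∏ i, u i) (Ideal.span {∏ i, y i})
    · rw [ind_neg (not_not.mpr h)]
      exact Finset.sum_nonneg fun i _ => Finset.sum_nonneg fun l _ => Finset.sum_nonneg
        fun q _ => mul_nonneg (ind_nonneg _) (ind_nonneg _)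
    · rw [ind_pos h]
      obtain ⟨q, hq, hq0, i, l, hi, hl⟩ := common h
      have hqP := hP q hq hq0 ⟨u i, hu i, hi⟩
      have g1 : (1:ℝ) ≤ ind (u i ∈ q) * ind (y l ∈ q) := by
        rw [ind_pos hi, ind_pos hl, one_mul]
      refine g1.trans ?_
      refine le_trans (Finset.single_le_sum
        (f := fun q => ind (u i ∈ q) * ind (y l ∈ q)) (fun q _ =>
          mul_nonneg (ind_nonneg _) (ind_nonneg _)) hqP) ?_
      refine le_trans (Finset.single_le_sum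
        (f := fun l => ∑ q ∈ Ps, ind (u i ∈ q) * ind (y l ∈ q)) (fun l _ =>
          Finset.sum_nonneg fun q _ => mul_nonneg (ind_nonneg _) (ind_nonneg _))
          (Finset.mem_univ l)) ?_
      exact Finset.single_le_sum
        (f := fun i => ∑ l, ∑ q ∈ Ps, ind (u i ∈ q) * ind (y l ∈ q)) (fun i _ =>
          Finset.sum_nonneg fun l _ => Finset.sum_nonneg fun q _ =>
            mul_nonneg (ind_nonneg _) (ind_nonneg _)) (Finset.mem_univ i)
  refine e1.trans (le_of_eq ?_)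
  have e2 : ∀ u : Fin j → 𝓞 K, exw k Y p₂ (fun y =>
        ∑ i, ∑ l, ∑ q ∈ Ps, ind (u i ∈ q) * ind (y l ∈ q)) =
      ∑ i, ∑ _l : Fin k, ∑ q ∈ Ps, ind (u i ∈ q) * ∑ y ∈ Y, p₂ y * ind (y ∈ q) := by
    intro u
    rw [exw_sum]
    refine Finset.sum_congr rfl fun i _ => ?_
    rw [exw_sum]
    refine Finset.sum_congr rfl fun l _ => ?_
    rw [exw_sum]
    refine Finset.sum_congr rfl fun q _ => ?_
    rw [exw_mul_left, marg s₂ l (fun y => ind (y ∈ q))]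
  simp only [e2]
  rw [exw_sum]
  have e3 : ∀ i : Fin j, exw j X p₁ (fun u =>
      ∑ _l : Fin k, ∑ q ∈ Ps, ind (u i ∈ q) * ∑ y ∈ Y, p₂ y * ind (y ∈ q)) =
      k * ∑ q ∈ Ps, (∑ x ∈ X, p₁ x * ind (x ∈ q)) * ∑ y ∈ Y, p₂ y * ind (y ∈ q) := by
    intro i
    rw [exw_sum]
    have : ∀ l : Fin k, exw j X p₁ (fun u =>
        ∑ q ∈ Ps, ind (u i ∈ q) * ∑ y ∈ Y, p₂ y * ind (y ∈ q)) =
        ∑ q ∈ Ps, (∑ x ∈ X, p₁ x * ind (x ∈ q)) * ∑ y ∈ Y, p₂ y * ind (y ∈ q) := by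
      intro l
      rw [exw_sum]
      refine Finset.sum_congr rfl fun q _ => ?_
      rw [exw_mul_right, marg s₁ i (fun x => ind (x ∈ q))]
    rw [Finset.sum_congr rfl fun l _ => this l, Finset.sum_const, Finset.card_univ,
      Fintype.card_fin, nsmul_eq_mul]
  rw [Finset.sum_congr rfl fun i _ => e3 i, Finset.sum_const, Finset.card_univ,
    Fintype.card_fin, nsmul_eq_mul]

theorem slot_ne_zero {ρ : Sp K → ℝ} (hρ : Adm ρ) {M : Ideal (𝓞 K)} {D : ℝ}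
    {S : Finset (𝓞 K)} (hS : IsSlot ρ M D S) {x : 𝓞 K} (hx : x ∈ S) : x ≠ 0 := by
  rintro rfl
  have h := ((hS 0).mp hx).2
  obtain ⟨c₁, c₂, hc, hcc⟩ := hρ.2.2.1
  have h1 := (hcc _ h (Classical.arbitrary (InfinitePlace K))).1
  simp [E] at h1
  linarith

omit [NumberField K] in
/-- the normalised weights sum to one. -/
theorem pr_sum {f : 𝓞 K → ℝ} {S : Finset (𝓞 K)} (h : 0 < ∑ x ∈ S, f x) :
    ∑ x ∈ S, pr f S x = 1 := by
  unfold pr
  rw [← Finset.sum_div, div_self h.ne']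

theorem wl_nonneg {ρ : Sp K → ℝ} (hρ : Adm ρ) (D : ℝ) (x : 𝓞 K) : 0 ≤ wl ρ D x := by
  unfold wl nrm
  exact div_nonneg (hρ.1 _).1 (Finset.prod_nonneg fun v _ => by positivity)

omit [NumberField K] in
theorem pr_nonneg {f : 𝓞 K → ℝ} (hf : ∀ x, 0 ≤ f x) (S : Finset (𝓞 K)) (x : 𝓞 K) :
    0 ≤ pr f S x := by
  unfold pr
  exact div_nonneg (hf x) (Finset.sum_nonneg fun y _ => hf y)

theorem one_le_nm {q : Ideal (𝓞 K)} (hq : q ≠ ⊥) : 1 ≤ nm q := by
  unfold nm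
  have : Ideal.absNorm q ≠ 0 := by
    rw [Ne, Ideal.absNorm_eq_zero_iff]
    exact hq
  exact_mod_cast Nat.one_le_iff_ne_zero.mpr this

theorem div_sq_le {c x : ℝ} (hc : 0 ≤ c) (hx : 1 ≤ x) :
    c / x ^ 2 ≤ c * (1 / x ^ (3 / 2 : ℝ)) := by
  have h1 : x ^ (3 / 2 : ℝ) ≤ x ^ 2 := by
    rw [← Real.rpow_natCast]
    exact Real.rpow_le_rpow_of_exponent_le hx (by norm_num)
  have h2 : 0 < x ^ (3 / 2 : ℝ) := Real.rpow_pos_of_pos (by linarith) _
  rw [mul_one_div]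
  exact div_le_div_of_nonneg_left hc h2 h1

theorem nonCopOfK (K : Type) [Field K] [NumberField K] : NonCopOfK K := by
  rintro hDiv ⟨CI, hCI, -, hI⟩ j k e₀ ρ₁ ρ₂ ε he hρ₁ hρ₂ hε
  classical
  -- the bound for the small primes
  set W : ℝ := (8 * j * k * CI / ε + 1) ^ 2 with hW
  have hW1 : 1 ≤ W := by
    rw [hW]
    have : 0 ≤ 8 * j * k * CI / ε := by positivity
    nlinarith
  refine ⟨⌈W⌉₊, fun M H hM hMw hH => ?_⟩
  obtain ⟨C₁, D₁, hC₁, hD₁, g₁⟩ := hDiv ρ₁ M hρ₁ hM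
  obtain ⟨C₂, D₂, hC₂, hD₂, g₂⟩ := hDiv ρ₂ M hρ₂ hM
  set C : ℝ := max C₁ C₂ with hC
  have hC1 : 1 ≤ C := hC₁.trans (le_max_left _ _)
  set R : ℝ := (2 * j * k * C ^ 2 * CI / ε + 1) ^ 2 with hR
  have hR1 : 1 ≤ R := by
    rw [hR]
    have : 0 ≤ 2 * j * k * C ^ 2 * CI / ε := by positivity
    nlinarith
  refine ⟨max (max D₁ D₂) (C * R ^ 2), ?_, ?_⟩
  · exact hD₁.trans ((le_max_left _ _).trans (le_max_left _ _))
  intro D hD X Y hX hY
  have hDD₁ : D₁ ≤ D := ((le_max_left _ _).trans (le_max_left _ _)).trans hD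
  have hDD₂ : D₂ ≤ D := ((le_max_right _ _).trans (le_max_left _ _)).trans hD
  have hDR : C * R ^ 2 ≤ D := (le_max_right _ _).trans hD
  have hD1 : 1 ≤ D := hD₁.trans hDD₁
  have hD' : D ≤ H * D ^ e₀ := by
    have h1 : D ^ 1 ≤ D ^ e₀ := pow_le_pow_right₀ hD1 he
    rw [pow_one] at h1
    calc D = 1 * D := (one_mul D).symm
      _ ≤ H * D ^ e₀ := mul_le_mul hH h1 (by linarith) (by linarith)
  obtain ⟨hX1, hX2, -, -, hX3⟩ := g₁ D hDD₁ X hX
  obtain ⟨hY1, hY2, -, -, hY3⟩ := g₂ (H * D ^ e₀) (hDD₂.trans hD') Y hY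
  have sX : 0 < ∑ x ∈ X, wl ρ₁ D x := lt_of_lt_of_le (by positivity) hX2
  have sY : 0 < ∑ x ∈ Y, wl ρ₂ (H * D ^ e₀) x := lt_of_lt_of_le (by positivity) hY2
  set Ps : Finset (Ideal (𝓞 K)) := (X.biUnion fun x =>
    (UniqueFactorizationMonoid.normalizedFactors (Ideal.span {x})).toFinset).filter
      (fun q => ⌈W⌉₊ < Ideal.absNorm q) with hPs
  have hPW : ∀ q ∈ Ps, q ≠ ⊥ ∧ W ≤ nm q := by
    intro q hq
    rw [hPs, Finset.mem_filter] at hq
    have h1 : W ≤ nm q := by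
      unfold nm
      exact (Nat.le_ceil W).trans (by exact_mod_cast hq.2.le)
    refine ⟨?_, h1⟩
    rintro rfl
    unfold nm at h1
    simp at h1
    linarith
  have hcov : ∀ q : Ideal (𝓞 K), q.IsPrime → q ≠ ⊥ → (∃ x ∈ X, x ∈ q) → q ∈ Ps := by
    rintro q hq hq0 ⟨x, hx, hxq⟩
    rw [hPs, Finset.mem_filter]
    have hx0 := slot_ne_zero hρ₁ hX hx
    constructor
    · rw [Finset.mem_biUnion]
      refine ⟨x, hx, ?_⟩
      rw [Multiset.mem_toFinset, Ideal.mem_normalizedFactors_iff (by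
        rw [Ne, Ideal.span_singleton_eq_bot]; exact hx0)]
      exact ⟨hq, (Ideal.span_singleton_le_iff_mem q).mpr hxq⟩
    · by_contra hcon
      push Not at hcon
      have h1 : q ∣ M := hMw q hq hq0 hcon
      have h2 : cop x M := ((hX x).mp hx).1
      unfold cop at h2
      rw [Ideal.isCoprime_iff_sup_eq] at h2
      apply hq.ne_top
      rw [eq_top_iff, ← h2, sup_le_iff]
      exact ⟨(Ideal.span_singleton_le_iff_mem q).mpr hxq, Ideal.le_of_dvd h1⟩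
  refine (union_bound j k X Y _ _ (fun x _ => pr_nonneg (wl_nonneg hρ₁ D) X x)
    (fun x _ => pr_nonneg (wl_nonneg hρ₂ (H * D ^ e₀)) Y x) (pr_sum sX) (pr_sum sY) Ps
    hcov).trans ?_
  set P₁ : Ideal (𝓞 K) → ℝ := fun q => ∑ x ∈ X, pr (wl ρ₁ D) X x * ind (x ∈ q) with hP₁
  set P₂ : Ideal (𝓞 K) → ℝ := fun q => ∑ y ∈ Y, pr (wl ρ₂ (H * D ^ e₀)) Y y * ind (y ∈ q)
    with hP₂
  have hP₂0 : ∀ q, 0 ≤ P₂ q := fun q => Finset.sum_nonneg fun y _ =>
    mul_nonneg (pr_nonneg (wl_nonneg hρ₂ (H * D ^ e₀)) Y y) (ind_nonneg _)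
  have hP₁0 : ∀ q, 0 ≤ P₁ q := fun q => Finset.sum_nonneg fun y _ =>
    mul_nonneg (pr_nonneg (wl_nonneg hρ₁ D) X y) (ind_nonneg _)
  have small : ∀ q ∈ Ps, C * nm q ^ 2 ≤ D → P₁ q * P₂ q ≤ 4 * (1 / (nm q) ^ (3 / 2 : ℝ)) := by
    intro q hq hs
    have hq1 := one_le_nm (hPW q hq).1
    have a1 : P₁ q ≤ 2 / nm q := (hX3 q (hPW q hq).1).2 (le_trans (by
      gcongr
      exact le_max_left _ _) hs)
    have a2 : P₂ q ≤ 2 / nm q := (hY3 q (hPW q hq).1).2 (le_trans (by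
      gcongr
      exact le_max_right _ _) (hs.trans hD'))
    calc P₁ q * P₂ q ≤ (2 / nm q) * (2 / nm q) :=
          mul_le_mul a1 a2 (hP₂0 q) (by positivity)
      _ = 4 / nm q ^ 2 := by field_simp; norm_num
      _ ≤ _ := div_sq_le (by norm_num) hq1
  have large : ∀ q ∈ Ps, P₁ q * P₂ q ≤ C ^ 2 * (1 / (nm q) ^ (3 / 2 : ℝ)) := by
    intro q hq
    have hq1 := one_le_nm (hPW q hq).1
    have a1 : P₁ q ≤ C / nm q := ((hX3 q (hPW q hq).1).1).trans (by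
      gcongr
      exact le_max_left _ _)
    have a2 : P₂ q ≤ C / nm q := ((hY3 q (hPW q hq).1).1).trans (by
      gcongr
      exact le_max_right _ _)
    calc P₁ q * P₂ q ≤ (C / nm q) * (C / nm q) :=
          mul_le_mul a1 a2 (hP₂0 q) (by positivity)
      _ = C ^ 2 / nm q ^ 2 := by field_simp
      _ ≤ _ := div_sq_le (by positivity) hq1
  have total : ∑ q ∈ Ps, P₁ q * P₂ q ≤
      4 * (CI / W ^ (1 / 2 : ℝ)) + C ^ 2 * (CI / R ^ (1 / 2 : ℝ)) := by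
    rw [← Finset.sum_filter_add_sum_filter_not Ps (fun q => C * nm q ^ 2 ≤ D)]
    apply add_le_add
    · calc ∑ q ∈ Ps.filter (fun q => C * nm q ^ 2 ≤ D), P₁ q * P₂ q
          ≤ ∑ q ∈ Ps.filter (fun q => C * nm q ^ 2 ≤ D), 4 * (1 / (nm q) ^ (3 / 2 : ℝ)) := by
            refine Finset.sum_le_sum fun q hq => ?_
            rw [Finset.mem_filter] at hq
            exact small q hq.1 hq.2
        _ = 4 * ∑ q ∈ Ps.filter (fun q => C * nm q ^ 2 ≤ D), (1 / (nm q) ^ (3 / 2 : ℝ)) := by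
            rw [Finset.mul_sum]
        _ ≤ _ := by
            gcongr
            refine hI W _ hW1 fun q hq => ?_
            rw [Finset.mem_filter] at hq
            exact hPW q hq.1
    · calc ∑ q ∈ Ps.filter (fun q => ¬ C * nm q ^ 2 ≤ D), P₁ q * P₂ q
          ≤ ∑ q ∈ Ps.filter (fun q => ¬ C * nm q ^ 2 ≤ D),
              C ^ 2 * (1 / (nm q) ^ (3 / 2 : ℝ)) := by
            refine Finset.sum_le_sum fun q hq => ?_
            rw [Finset.mem_filter] at hq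
            exact large q hq.1
        _ = C ^ 2 * ∑ q ∈ Ps.filter (fun q => ¬ C * nm q ^ 2 ≤ D),
              (1 / (nm q) ^ (3 / 2 : ℝ)) := by
            rw [Finset.mul_sum]
        _ ≤ _ := by
            gcongr
            refine hI R _ hR1 fun q hq => ?_
            rw [Finset.mem_filter, not_le] at hq
            refine ⟨(hPW q hq.1).1, ?_⟩
            have h1 : C * R ^ 2 < C * nm q ^ 2 := lt_of_le_of_lt hDR hq.2
            have h2 : R ^ 2 < nm q ^ 2 := lt_of_mul_lt_mul_left h1 (by positivity)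
            exact (lt_of_pow_lt_pow_left₀ 2 (by
              have := one_le_nm (hPW q hq.1).1
              linarith) h2).le
  have sqW : W ^ (1 / 2 : ℝ) = 8 * j * k * CI / ε + 1 := by
    rw [hW, ← Real.sqrt_eq_rpow, Real.sqrt_sq (by positivity)]
  have sqR : R ^ (1 / 2 : ℝ) = 2 * j * k * C ^ 2 * CI / ε + 1 := by
    rw [hR, ← Real.sqrt_eq_rpow, Real.sqrt_sq (by positivity)]
  rw [sqW, sqR] at total
  have f1 : (j:ℝ) * (k * (4 * (CI / (8 * j * k * CI / ε + 1)))) ≤ ε / 2 := by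
    rw [show (j:ℝ) * (k * (4 * (CI / (8 * j * k * CI / ε + 1)))) =
      (4 * j * k * CI) / (8 * j * k * CI / ε + 1) by ring]
    rw [div_le_iff₀ (by positivity)]
    have : ε / 2 * (8 * j * k * CI / ε + 1) = 4 * j * k * CI + ε / 2 := by
      field_simp
      ring
    rw [this]
    linarith
  have f2 : (j:ℝ) * (k * (C ^ 2 * (CI / (2 * j * k * C ^ 2 * CI / ε + 1)))) ≤ ε / 2 := by
    rw [show (j:ℝ) * (k * (C ^ 2 * (CI / (2 * j * k * C ^ 2 * CI / ε + 1)))) =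
      (j * k * C ^ 2 * CI) / (2 * j * k * C ^ 2 * CI / ε + 1) by ring]
    rw [div_le_iff₀ (by positivity)]
    have : ε / 2 * (2 * j * k * C ^ 2 * CI / ε + 1) = j * k * C ^ 2 * CI + ε / 2 := by
      field_simp
    rw [this]
    linarith
  calc (j:ℝ) * (k * ∑ q ∈ Ps, P₁ q * P₂ q)
      ≤ j * (k * (4 * (CI / (8 * j * k * CI / ε + 1)) +
          C ^ 2 * (CI / (2 * j * k * C ^ 2 * CI / ε + 1)))) := by gcongr
    _ = (j:ℝ) * (k * (4 * (CI / (8 * j * k * CI / ε + 1)))) +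
        (j:ℝ) * (k * (C ^ 2 * (CI / (2 * j * k * C ^ 2 * CI / ε + 1)))) := by ring
    _ ≤ ε / 2 + ε / 2 := add_le_add f1 f2
    _ = ε := by ring

end Pool.Agent.T9h80.NF
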