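import Pool.Agent.T9h80.NF.NonCop

/-!
# Residue classes modulo `q₀ τ`, any Lipschitz function
-/

set_option autoImplicit false

namespace Pool.Agent.T9h80.NF

open Finset NumberField Pool.Agent.T9h42.GF Pool.Agent.T9h57.QD Pool.Agent.T9h11.NF

theorem nm_mul {K : Type} [Field K] [NumberField K] (I J : Ideal (𝓞 K)) :
    nm (I * J) = nm I * nm J := by
  unfold nm
  rw [map_mul, Nat.cast_mul]

theorem one_le_phi {K : Type} [Field K] [NumberField K] {I : Ideal (𝓞 K)} (hI : I ≠ ⊥) :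
    1 ≤ phi I := by
  unfold phi
  have : Finite (𝓞 K ⧸ I) := Ideal.finiteQuotientOfFreeOfNeBot I hI
  have : 0 < Nat.card (𝓞 K ⧸ I)ˣ := Nat.card_pos
  exact_mod_cast this

theorem cCountK (K : Type) [Field K] [NumberField K] :
    LatK K → AbelK K → MeanK K → CCountK K := by
  rintro ⟨CL, hCL, la, -, -, ld⟩ ⟨CA, hCA, hA⟩ hMean M q₀ hM hq₀ hPD
  classical
  have hd1 : 1 ≤ Module.finrank ℚ K := Module.finrank_pos
  have hMq : M * q₀ ≠ ⊥ := mul_ne_zero hM hq₀
  set c : ℝ := nm (M * q₀) with hc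
  have hc1 : 1 ≤ c := one_le_nm hMq
  have hcd : c ≤ c ^ Module.finrank ℚ K := le_self_pow₀ hc1 (by omega)
  refine ⟨CA * c * (2 * CL * (1 + CA * c) ^ Module.finrank ℚ K), ?_, ?_⟩
  · have h1 : 1 ≤ (1 + CA * c) ^ Module.finrank ℚ K := one_le_pow₀ (by nlinarith)
    have h2 : 1 ≤ CA * c := by nlinarith
    have h3 : 1 ≤ 2 * CL * (1 + CA * c) ^ Module.finrank ℚ K := by nlinarith
    nlinarith
  intro τ s κ hτ hcop hs hsd hκ F L B hL hB hF S hS
  have hT : M * q₀ * τ ≠ ⊥ := mul_ne_zero hMq hτ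
  have : Finite (𝓞 K ⧸ M * q₀ * τ) := Ideal.finiteQuotientOfFreeOfNeBot _ hT
  let _ : Fintype (𝓞 K ⧸ M * q₀ * τ) := Fintype.ofFinite _
  have hτ1 : 1 ≤ nm τ := one_le_nm hτ
  have hs1 : 1 ≤ s := by
    by_contra hcon
    push Not at hcon
    have : s ^ Module.finrank ℚ K < 1 := pow_lt_one₀ hs.le hcon (by omega)
    linarith
  have hφ : 1 ≤ phi q₀ := one_le_phi hq₀
  have hex : ∀ q : 𝓞 K ⧸ M * q₀ * τ, ∃ x : 𝓞 K, Ideal.Quotient.mk (M * q₀ * τ) x = q :=
    fun q => Ideal.Quotient.mk_surjective q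
  choose out hout using hex
  obtain ⟨m1, -, -, -, m5⟩ := hMean M q₀ τ hM hq₀ hτ hPD hcop out hout
  have m1' := m1 κ hκ
  have leMT : M * q₀ * τ ≤ q₀ * τ := by
    rw [mul_assoc]
    exact Ideal.mul_le_right (I := M) (J := q₀ * τ)
  have leqT : q₀ * τ ≤ τ := Ideal.mul_le_right (I := q₀) (J := τ)
  set g : (𝓞 K ⧸ M * q₀ * τ) → ℂ := fun q =>
    ((ind (cop (out q) M ∧ out q - κ ∈ q₀ * τ) -
      ind (cop (out q) M) / (phi q₀ * nm τ) : ℝ) : ℂ) with hg
  have hg0 : ∑ q, g q = 0 := by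
    rw [hg]
    simp only
    rw [← Complex.ofReal_sum, m1', Complex.ofReal_zero]
  have hgx : ∀ x : 𝓞 K, g (Ideal.Quotient.mk (M * q₀ * τ) x) =
      ((ind (cop x M ∧ x - κ ∈ q₀ * τ) - ind (cop x M) / (phi q₀ * nm τ) : ℝ) : ℂ) := by
    intro x
    have h1 : out (Ideal.Quotient.mk (M * q₀ * τ) x) - x ∈ M * q₀ * τ := by
      rw [← Ideal.Quotient.eq, hout]
    have h2 := m5 _ _ h1
    have h3 : out (Ideal.Quotient.mk (M * q₀ * τ) x) - x ∈ q₀ * τ := by
      exact leMT h1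
    have h4 : out (Ideal.Quotient.mk (M * q₀ * τ) x) - κ ∈ q₀ * τ ↔ x - κ ∈ q₀ * τ := by
      have e : out (Ideal.Quotient.mk (M * q₀ * τ) x) - κ =
        (out (Ideal.Quotient.mk (M * q₀ * τ) x) - x) + (x - κ) := by ring
      rw [e]
      exact (q₀ * τ).add_mem_iff_right h3
    rw [hg]
    simp only
    rw [propext h2, propext h4]
  have hgn : ∀ x : 𝓞 K, ‖g (Ideal.Quotient.mk (M * q₀ * τ) x)‖ ≤
      ind (x - κ ∈ τ) + 1 / nm τ := by
    intro x
    rw [hgx, Complex.norm_real, Real.norm_eq_abs]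
    refine (abs_sub _ _).trans ?_
    apply add_le_add
    · rw [abs_of_nonneg (ind_nonneg _)]
      by_cases h : x - κ ∈ τ
      · rw [ind_pos h]
        exact ind_le_one _
      · rw [ind_neg h, ind_neg]
        rintro ⟨-, h'⟩
        exact h (leqT h')
    · rw [abs_of_nonneg (div_nonneg (ind_nonneg _) (by positivity))]
      have h5 : 0 < phi q₀ * nm τ := by positivity
      have h6 : nm τ ≤ phi q₀ * nm τ := by nlinarith
      calc ind (cop x M) / (phi q₀ * nm τ) ≤ 1 / (phi q₀ * nm τ) := by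
            gcongr
            exact ind_le_one _
        _ ≤ 1 / nm τ := one_div_le_one_div_of_le (by linarith) h6
  -- the finite set
  set B' : ℝ := B + CA * (c * s) with hB'
  have hB'0 : 0 ≤ B' := by positivity
  have hfin : {x : 𝓞 K | ‖E (x : K)‖ ≤ B'}.Finite := by
    by_contra hcon
    have hinf : {x : 𝓞 K | ‖E (x : K)‖ ≤ B'}.Infinite := hcon
    obtain ⟨N, hN⟩ := exists_nat_gt (CL * (B' + 1) ^ Module.finrank ℚ K)
    obtain ⟨t, ht, htc⟩ := hinf.exists_subset_card_eq N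
    have := la B' t hB'0 (fun x hx => ht hx)
    rw [htc] at this
    linarith
  set S' : Finset (𝓞 K) := hfin.toFinset with hS'
  have hS'm : ∀ x : 𝓞 K, x ∈ S' ↔ ‖E (x : K)‖ ≤ B' := by
    intro x
    rw [hS', Set.Finite.mem_toFinset]
    rfl
  have hnT : nm (M * q₀ * τ) ≤ (c * s) ^ Module.finrank ℚ K := by
    rw [nm_mul, ← hc, ← hsd, mul_pow]
    gcongr
  have key := hA (M * q₀ * τ) (c * s) hT (by positivity) hnT g hg0 F L B hL hB hF S S' hS
    (fun x hx => (hS'm x).mpr hx)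
  -- the left side
  have eL : ‖∑ x ∈ S, g (Ideal.Quotient.mk (M * q₀ * τ) x) * (F (E (x : K)) : ℂ)‖ =
      |∑ x ∈ S, F (E (x : K)) * ind (cop x M ∧ x - κ ∈ q₀ * τ) -
      (∑ x ∈ S, F (E (x : K)) * ind (cop x M)) / (phi q₀ * nm τ)| := by
    rw [← Real.norm_eq_abs, ← Complex.norm_real]
    congr 1
    rw [Finset.sum_div, ← Finset.sum_sub_distrib, Complex.ofReal_sum]
    refine Finset.sum_congr rfl fun x _ => ?_
    rw [hgx, ← Complex.ofReal_mul]
    congr 1
    ring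
  rw [eL] at key
  refine key.trans ?_
  -- the sum of `|g|`
  have hcount1 : ∑ x ∈ S', ind (x - κ ∈ τ) ≤ CL * (1 + B' / s) ^ Module.finrank ℚ K := by
    have e : ∑ x ∈ S', ind (x - κ ∈ τ) = ((S'.filter (fun x => x - κ ∈ τ)).card : ℝ) := by
      unfold ind
      rw [Finset.card_filter, Nat.cast_sum]
      refine Finset.sum_congr rfl fun x _ => ?_
      split_ifs <;> simp
    rw [e]
    refine ld τ s B' κ _ hτ hs hsd hB'0 fun x hx => ?_
    rw [Finset.mem_filter] at hx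
    exact ⟨hx.2, (hS'm x).mp hx.1⟩
  have hcount2 : (S'.card : ℝ) * (1 / nm τ) ≤ CL * (1 + B' / s) ^ Module.finrank ℚ K := by
    have h1 := la B' S' hB'0 (fun x hx => (hS'm x).mp hx)
    rw [← hsd]
    calc (S'.card : ℝ) * (1 / s ^ Module.finrank ℚ K)
        ≤ (CL * (B' + 1) ^ Module.finrank ℚ K) * (1 / s ^ Module.finrank ℚ K) := by gcongr
      _ = CL * ((B' + 1) / s) ^ Module.finrank ℚ K := by
          rw [div_pow]
          ring
      _ ≤ CL * (1 + B' / s) ^ Module.finrank ℚ K := by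
          have h2 : (B' + 1) / s ≤ 1 + B' / s := by
            rw [add_div, add_comm]
            have : 1 / s ≤ 1 := by
              rw [div_le_one hs]
              exact hs1
            linarith
          gcongr
  have hsum : ∑ x ∈ S', ‖g (Ideal.Quotient.mk (M * q₀ * τ) x)‖ ≤
      2 * CL * (1 + B' / s) ^ Module.finrank ℚ K := by
    calc ∑ x ∈ S', ‖g (Ideal.Quotient.mk (M * q₀ * τ) x)‖
        ≤ ∑ x ∈ S', (ind (x - κ ∈ τ) + 1 / nm τ) := Finset.sum_le_sum fun x _ => hgn x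
      _ = ∑ x ∈ S', ind (x - κ ∈ τ) + (S'.card : ℝ) * (1 / nm τ) := by
          rw [Finset.sum_add_distrib, Finset.sum_const, nsmul_eq_mul]
      _ ≤ CL * (1 + B' / s) ^ Module.finrank ℚ K + CL * (1 + B' / s) ^ Module.finrank ℚ K :=
          add_le_add hcount1 hcount2
      _ = _ := by ring
  have hB's : 1 + B' / s ≤ (1 + CA * c) * (1 + B / s) := by
    have h1 : B' / s = B / s + CA * c := by
      rw [hB', add_div]
      congr 1
      field_simp
    rw [h1]
    have h2 : 0 ≤ B / s := by positivity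
    have h3 : 0 ≤ CA * c := by positivity
    nlinarith
  calc CA * L * (c * s) * ∑ x ∈ S', ‖g (Ideal.Quotient.mk (M * q₀ * τ) x)‖
      ≤ CA * L * (c * s) * (2 * CL * (1 + B' / s) ^ Module.finrank ℚ K) := by gcongr
    _ ≤ CA * L * (c * s) * (2 * CL * ((1 + CA * c) * (1 + B / s)) ^ Module.finrank ℚ K) := by
        gcongr
    _ = _ := by
        rw [mul_pow]
        ring

end Pool.Agent.T9h80.NF
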